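import Pool.Agent.K3h5.FF.Stm

/-!
# FF brick EWM: the Ewens distribution is a model (helper52, for helper5)
-/

set_option autoImplicit false

open MeasureTheory Filter Topology ProbabilityTheory Set

namespace Pool.Agent.K3h52.FF

open Pool.Agent.K3h5.FF

/-- the position of the letter `a` with a given mark -/
def posn : Label → ℤ → ℤ
  | Sum.inl k, a => a - k
  | Sum.inr j, _ => j

/-- the size of a mark -/
def lbd : Label → ℕ
  | Sum.inl k => k.natAbs
  | Sum.inr j => j

lemma labP_iff {n : ℕ} (π : Equiv.Perm (Fin n)) (l : Label) (a : ℤ) (p b : Fin n)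
    (hp : ((p : ℕ) : ℤ) = posn l a) (hb : ((b : ℕ) : ℤ) = a) : LabP π l a ↔ π p = b := by
  rcases l with k | j
  · simp only [LabP, posn] at *
    constructor
    · rintro ⟨q, h1, h2⟩
      have hq : q = p := by
        apply Fin.ext
        omega
      subst hq
      apply Fin.ext
      omega
    · intro h
      exact ⟨p, by rw [h]; exact hb, by omega⟩
  · simp only [LabP, posn] at *
    constructor
    · rintro ⟨q, h1, h2⟩
      have hq : q = p := by
        apply Fin.ext
        omega
      subst hq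
      apply Fin.ext
      omega
    · intro h
      exact ⟨p, by omega, by rw [h]; exact hb⟩

lemma ev_pos {l : ℕ} (x : Fin l → ℝ) (hx : StrictMono x) (hI : ∀ i, x i ∈ Ioo (0 : ℝ) 1)
    (M : ℝ) : ∀ᶠ n : ℕ in atTop, (∀ i, M < n * x i) ∧ (∀ i, M < n * (1 - x i)) ∧
      ∀ i i', i < i' → M < n * (x i' - x i) := by
  have key : ∀ c : ℝ, 0 < c → ∀ᶠ n : ℕ in atTop, M < n * c := fun c hc =>
    ((tendsto_natCast_atTop_atTop (R := ℝ)).atTop_mul_const hc).eventually_gt_atTop M
  refine (eventually_all.2 fun i => key _ (hI i).1).and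
    ((eventually_all.2 fun i => key _ (sub_pos.2 (hI i).2)).and
    (eventually_all.2 fun i => eventually_all.2 fun i' => ?_))
  by_cases h : i < i'
  · filter_upwards [key _ (sub_pos.2 (hx h))] with n hn _ using hn
  · exact Eventually.of_forall fun n h' => absurd h' h

lemma ratio_lim (θ : ℝ) (hθ : 0 < θ) (l : ℕ) :
    Tendsto (fun n : ℕ => (n : ℝ) ^ l * ((∏ i ∈ Finset.range (n - l), (θ + i)) /
      ∏ i ∈ Finset.range n, (θ + i))) atTop (𝓝 1) := by
  have h1 : ∀ j ∈ Finset.range l,
      Tendsto (fun n : ℕ => (n : ℝ) / (θ + ((n - l + j : ℕ) : ℝ))) atTop (𝓝 1) := by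
    intro j _
    have : Tendsto (fun n : ℕ => (n : ℝ) / ((n : ℝ) + (θ - l + j))) atTop (𝓝 1) :=
      tendsto_natCast_div_add_atTop _
    refine this.congr' ?_
    filter_upwards [eventually_ge_atTop l] with n hn
    rw [Nat.cast_add, Nat.cast_sub hn]
    congr 1
    ring
  have h2 := tendsto_finset_prod (Finset.range l) h1
  rw [Finset.prod_const_one] at h2
  refine h2.congr' ?_
  filter_upwards [eventually_ge_atTop l] with n hn
  obtain ⟨m, rfl⟩ := Nat.exists_eq_add_of_le hn
  have e1 : l + m - l = m := by omega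
  have e2 : Finset.range (l + m) = Finset.range (m + l) := by rw [add_comm]
  rw [e1, e2, Finset.prod_range_add, Finset.prod_div_distrib, Finset.prod_const,
    Finset.card_range]
  have hp : (∏ i ∈ Finset.range m, (θ + (i : ℝ))) ≠ 0 :=
    Finset.prod_ne_zero_iff.2 fun i _ => by positivity
  rw [← mul_div_assoc, mul_comm (((l + m : ℕ) : ℝ) ^ l) _, mul_div_mul_left _ _ hp]

/-- the weights of the Ewens distribution -/
lemma pr_ewens (θ : ℝ) (n : ℕ) (A : Set (Equiv.Perm (Fin n))) :
    pr (ewens θ n) A = pr (fun σ : Equiv.Perm (Fin n) => θ ^ cyc σ) A /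
      ∑ σ : Equiv.Perm (Fin n), θ ^ cyc σ := by
  unfold pr ewens
  rw [Finset.sum_div]
  refine Finset.sum_congr rfl fun π _ => ?_
  split_ifs <;> simp

lemma Z_pos (θ : ℝ) (hθ : 0 < θ) (n : ℕ) : 0 < ∑ σ : Equiv.Perm (Fin n), θ ^ cyc σ :=
  Finset.sum_pos (fun _ _ => by positivity) ⟨1, Finset.mem_univ _⟩

lemma ewens_lim (h3 : S_EW) (θ : ℝ) (hθ : 0 < θ) (l : ℕ) (u : Fin l → Label)
    (hu : FrontInj u) (x : Fin l → ℝ) (hx : StrictMono x) (hI : ∀ i, x i ∈ Ioo (0 : ℝ) 1) :
    Tendsto (fun n : ℕ => (n : ℝ) ^ l * pr (ewens θ n) {π | ∀ i, LabP π (u i) ⌊(n : ℝ) * x i⌋})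
      atTop (𝓝 (∏ i, rho (lamE θ) (fun _ => 1) (u i) (x i))) := by
  classical
  have hprod : (∏ i, rho (lamE θ) (fun _ => 1) (u i) (x i)) =
      θ ^ ((Finset.univ.filter fun i => u i = Sum.inl 0).card) := by
    rw [← Finset.prod_const, Finset.prod_filter]
    refine Finset.prod_congr rfl fun i _ => ?_
    rcases h : u i with k | j
    · by_cases hk : k = 0
      · simp [rho, lamE, hk]
      · have : ¬ ((Sum.inl k : Label) = Sum.inl 0) := fun h' => hk (Sum.inl_injective h')
        simp [rho, lamE, hk]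
    · simp [rho]
  rw [hprod]
  set K : ℕ := ∑ i, lbd (u i) with hK
  have hKi : ∀ i, lbd (u i) ≤ K := fun i =>
    Finset.single_le_sum (f := fun i => lbd (u i)) (fun _ _ => Nat.zero_le _) (Finset.mem_univ i)
  have hlim := (ratio_lim θ hθ l).const_mul
    (θ ^ ((Finset.univ.filter fun i => u i = Sum.inl 0).card))
  rw [mul_one] at hlim
  refine hlim.congr' ?_
  filter_upwards [ev_pos x hx hI (2 * K + 2)] with n hn
  obtain ⟨n1, n2, n3⟩ := hn
  -- the letters and the positions
  set a : Fin l → ℤ := fun i => ⌊(n : ℝ) * x i⌋ with ha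
  have a1 : ∀ i, (2 * K + 1 : ℤ) < a i := by
    intro i
    have h1 := Int.lt_floor_add_one ((n : ℝ) * x i)
    have h2 := n1 i
    have h3 : ((2 * K + 1 : ℤ) : ℝ) < ((a i : ℤ) : ℝ) := by
      push_cast
      simp only [ha]
      linarith
    exact_mod_cast h3
  have a2 : ∀ i, a i + (2 * K + 2 : ℤ) < n := by
    intro i
    have h1 := Int.floor_le ((n : ℝ) * x i)
    have h2 := n2 i
    have h3 : ((a i + (2 * K + 2 : ℤ) : ℤ) : ℝ) < ((n : ℤ) : ℝ) := by
      push_cast
      simp only [ha]
      linarith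
    exact_mod_cast h3
  have a3 : ∀ i i', i < i' → a i + (2 * K + 1 : ℤ) < a i' := by
    intro i i' hii
    have h1 := Int.floor_le ((n : ℝ) * x i)
    have h1' := Int.lt_floor_add_one ((n : ℝ) * x i')
    have h2 := n3 i i' hii
    have h3 : ((a i + (2 * K + 1 : ℤ) : ℤ) : ℝ) < ((a i' : ℤ) : ℝ) := by
      push_cast
      simp only [ha]
      linarith
    exact_mod_cast h3
  have P1 : ∀ i, 0 ≤ posn (u i) (a i) ∧ posn (u i) (a i) < n := by
    intro i
    have h1 := a1 i
    have h2 := a2 i
    have h3 := hKi i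
    rcases h : u i with k | j
    · rw [h] at h3
      simp only [posn, lbd] at h3 ⊢
      omega
    · rw [h] at h3
      simp only [posn, lbd] at h3 ⊢
      omega
  let p : Fin l → Fin n := fun i => ⟨(posn (u i) (a i)).toNat, by have := P1 i; omega⟩
  let b : Fin l → Fin n := fun i => ⟨(a i).toNat, by have := a1 i; have := a2 i; omega⟩
  have hp : ∀ i, (((p i : Fin n) : ℕ) : ℤ) = posn (u i) (a i) := fun i => by
    have := P1 i
    simp only [p]
    omega
  have hb : ∀ i, (((b i : Fin n) : ℕ) : ℤ) = a i := fun i => by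
    have := a1 i
    simp only [b]
    omega
  have hev : {π : Equiv.Perm (Fin n) | ∀ i, LabP π (u i) (a i)} = {π | ∀ i, π (p i) = b i} := by
    ext π
    simp only [mem_setOf_eq]
    exact forall_congr' fun i => labP_iff π (u i) (a i) (p i) (b i) (hp i) (hb i)
  have hsep : ∀ i i', i ≠ i' → a i + (2 * K + 1 : ℤ) < a i' ∨ a i' + (2 * K + 1 : ℤ) < a i := by
    intro i i' h
    rcases lt_or_gt_of_ne h with h | h
    · exact Or.inl (a3 i i' h)
    · exact Or.inr (a3 i' i h)
  have hbi : Function.Injective b := by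
    intro i i' h
    by_contra hne
    have e : a i = a i' := by rw [← hb i, ← hb i', h]
    have := hsep i i' hne
    omega
  have hpi : Function.Injective p := by
    intro i i' h
    by_contra hne
    have e : posn (u i) (a i) = posn (u i') (a i') := by rw [← hp i, ← hp i', h]
    have h1 := hsep i i' hne
    have h2 := hKi i
    have h3 := hKi i'
    have h4 := a1 i
    have h5 := a1 i'
    rcases hi : u i with k | j <;> rcases hi' : u i' with k' | j' <;>
      rw [hi] at h2 e <;> rw [hi'] at h3 e <;> simp only [posn, lbd] at h2 h3 e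
    · omega
    · omega
    · omega
    · have : j = j' := by exact_mod_cast e
      subst this
      exact hne (hu i i' j hi hi')
  have hpb : ∀ i i', p i = b i' → i = i' := by
    intro i i' h
    by_contra hne
    have e : posn (u i) (a i) = a i' := by rw [← hp i, ← hb i', h]
    have h1 := hsep i i' hne
    have h2 := hKi i
    have h5 := a1 i'
    rcases hi : u i with k | j <;> rw [hi] at h2 e <;> simp only [posn, lbd] at h2 e
    · omega
    · omega
  have hcard : (Finset.univ.filter fun i => p i = b i) =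
      Finset.univ.filter fun i => u i = Sum.inl 0 := by
    ext i
    simp only [Finset.mem_filter, Finset.mem_univ, true_and]
    have h2 := hKi i
    have h5 := a1 i
    constructor
    · intro h
      have e : posn (u i) (a i) = a i := by rw [← hp i, ← hb i, h]
      rcases hi : u i with k | j <;> rw [hi] at h2 e <;> simp only [posn, lbd] at h2 e
      · have : k = 0 := by omega
        rw [this]
      · omega
    · intro h
      apply Fin.ext
      have e1 := hp i
      have e2 := hb i
      rw [h] at e1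
      simp only [posn] at e1
      omega
  have hEW := (h3 θ hθ n).2 l p b hpi hbi hpb
  have hZ := (h3 θ hθ n).1
  rw [hcard] at hEW
  change _ = (n : ℝ) ^ l * pr (ewens θ n) {π : Equiv.Perm (Fin n) | ∀ i, LabP π (u i) (a i)}
  rw [hev, pr_ewens, hEW, hZ]
  ring

lemma ewens_swap (h2 : S_CYC) (θ : ℝ) (hθ : 0 < θ) (n : ℕ) (π : Equiv.Perm (Fin n))
    (x y : Fin n) : ewens θ n (Equiv.swap x y * π) ≤ (max θ θ⁻¹) ^ 2 * ewens θ n π := by
  unfold ewens
  rw [← mul_div_assoc]
  refine div_le_div_of_nonneg_right ?_ (Z_pos θ hθ n).le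
  obtain ⟨c1, c2⟩ := (h2 n π).2 x y
  rcases le_total 1 θ with h | h
  · calc θ ^ cyc (Equiv.swap x y * π) ≤ θ ^ (cyc π + 2) := pow_le_pow_right₀ h c1
      _ = θ ^ 2 * θ ^ cyc π := by ring
      _ ≤ (max θ θ⁻¹) ^ 2 * θ ^ cyc π := by
        gcongr
        exact le_max_left _ _
  · calc θ ^ cyc (Equiv.swap x y * π)
        = θ⁻¹ ^ 2 * θ ^ (cyc (Equiv.swap x y * π) + 2) := by
          rw [pow_add]
          field_simp
      _ ≤ θ⁻¹ ^ 2 * θ ^ cyc π := by
        have := pow_le_pow_of_le_one hθ.le h c2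
        gcongr
      _ ≤ (max θ θ⁻¹) ^ 2 * θ ^ cyc π := by
        gcongr
        exact le_max_right _ _

/-- EWM: the Ewens distribution is a model. -/
theorem t_EWM : S_RATIO → S_CYC → S_EW → S_EWM := by
  intro h1 h2 h3 θ hθ
  have hmax : 1 ≤ max θ θ⁻¹ := by
    rcases le_total 1 θ with h | h
    · exact h.trans (le_max_left _ _)
    · exact ((one_le_inv₀ hθ).2 h).trans (le_max_right _ _)
  have hsum : ∀ n, ∑ π, ewens θ n π = 1 := fun n => by
    unfold ewens
    rw [← Finset.sum_div, div_self (Z_pos θ hθ n).ne']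
  have hnn : ∀ n π, 0 ≤ ewens θ n π := fun n π =>
    div_nonneg (by positivity) (Z_pos θ hθ n).le
  refine
    { nonneg := hnn
      sum := hsum
      bound := ⟨(max θ θ⁻¹) ^ 2, one_le_pow₀ hmax, ?_⟩
      lim := fun l u hu x hx hI => ewens_lim h3 θ hθ l u hu x hx hI
      lam_cont := ?_
      lam_pos := ?_
      phi_cont := continuousOn_const
      phi_pos := fun _ _ => one_pos
      phi_int := by simp }
  · intro n l p a hp ha
    have hln : l ≤ n := by simpa using Fintype.card_le_of_injective p hp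
    have hdp : (0 : ℝ) < (n.descFactorial l : ℝ) := by
      exact_mod_cast Nat.descFactorial_pos.2 hln
    rw [le_div_iff₀ hdp]
    have := h1 n (ewens θ n) ((max θ θ⁻¹) ^ 2) (one_le_pow₀ hmax) (hnn n)
      (fun π x y => ewens_swap h2 θ hθ n π x y) l p a hp ha
    rwa [hsum, mul_one] at this
  · intro k
    exact continuousOn_const
  · intro k x _
    unfold lamE
    split_ifs
    · exact hθ
    · exact one_pos

end Pool.Agent.K3h52.FF
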